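import Pool.Agent.helper73.BS.Spec2

set_option autoImplicit false

namespace Pool.Agent.BS

open Matrix Module Pool.Agent.UG Pool.Agent.H48SL Pool.Agent.SHL

/-- a linear space which contains `S` contains the closure of `S` -/
theorem SC_lin {n : ℕ} (S : Set (MQ n)) (L : Submodule ℚ (MQ n)) (h : ∀ x ∈ S, x ∈ L) :
    ∀ x ∈ ZQ S, x ∈ L := by
  intro x hx
  by_contra hxL
  obtain ⟨φ, h1, h2⟩ := Submodule.exists_dual_map_eq_bot_of_notMem hxL inferInstance
  have hφ : ∀ y ∈ L, φ y = 0 := by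
    intro y hy
    have h3 : φ y ∈ L.map φ := Submodule.mem_map_of_mem hy
    rw [h2, Submodule.mem_bot] at h3
    exact h3
  obtain ⟨F, hF⟩ : ∃ F : MvPolynomial (Fin n × Fin n) ℚ, ∀ y : MQ n,
      MvPolynomial.eval (fun a : Fin n × Fin n => y a.1 a.2) F = φ y := by
    refine ⟨∑ i, ∑ j, MvPolynomial.C (φ (Matrix.single i j 1)) * MvPolynomial.X (i, j), ?_⟩
    intro y
    conv_rhs => rw [Matrix.matrix_eq_sum_single y]
    rw [map_sum, map_sum]
    refine Finset.sum_congr rfl fun i _ => ?_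
    rw [map_sum, map_sum]
    refine Finset.sum_congr rfl fun j _ => ?_
    rw [map_mul, MvPolynomial.eval_C, MvPolynomial.eval_X]
    have h4 : Matrix.single i j (y i j) = y i j • Matrix.single i j (1 : ℚ) := by
      rw [Matrix.smul_single, smul_eq_mul, mul_one]
    rw [h4, map_smul, smul_eq_mul, mul_comm]
  apply h1
  rw [← hF x]
  apply hx F
  intro s hs
  rw [hF s]
  exact hφ s (h s hs)

/-- `x ↦ x *ᵥ w` -/
def SC_ev {n : ℕ} (w : VQ n) : MQ n →ₗ[ℚ] VQ n where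
  toFun x := x *ᵥ w
  map_add' x y := Matrix.add_mulVec x y w
  map_smul' c x := Matrix.smul_mulVec c x w

theorem SC (hJE : JE_stmt) (hZG : ZG_stmt) : SC_stmt := by
  intro n k P W hW h0 hk hst hirr hcom
  have hgh : ∀ g ∈ P, ∀ h ∈ P, ∀ i, ∀ w ∈ W (i + 1),
      qg g *ᵥ (qg h *ᵥ w) - qg h *ᵥ (qg g *ᵥ w) ∈ W i := by
    intro g hg h hh i w hw
    have h1 := hcom g hg h hh i (qg h *ᵥ (qg g *ᵥ w)) (hst h hh _ _ (hst g hg _ _ hw))
    have h2 : qg (g * h * g⁻¹ * h⁻¹) *ᵥ (qg h *ᵥ (qg g *ᵥ w)) = qg g *ᵥ (qg h *ᵥ w) := by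
      rw [Matrix.mulVec_mulVec, Matrix.mulVec_mulVec, Matrix.mulVec_mulVec, ← qg_mul, ← qg_mul, ← qg_mul]
      congr 2
      group
    rw [h2] at h1
    exact h1
  constructor
  · intro g hg i
    obtain ⟨M, hM⟩ : ∃ M : Submodule ℚ (VQ n), ∀ w, w ∈ M ↔ w ∈ W (i + 1) ∧ qg g *ᵥ w - w ∈ W i := by
      refine ⟨W (i + 1) ⊓ (W i).comap (Matrix.mulVecLin (qg g) - LinearMap.id), ?_⟩
      intro w
      rw [Submodule.mem_inf, Submodule.mem_comap]
      rfl
    have h1 : W i ≤ M := by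
      intro w hw
      rw [hM]
      exact ⟨hW (Nat.le_succ i) hw, (W i).sub_mem (hst g hg i w hw) hw⟩
    have h2 : M ≤ W (i + 1) := fun w hw => ((hM w).1 hw).1
    have h3 : ∀ h ∈ P, ∀ w ∈ M, qg h *ᵥ w ∈ M := by
      intro h hh w hw
      rw [hM] at hw ⊢
      refine ⟨hst h hh _ _ hw.1, ?_⟩
      have h4 := hst h hh i _ hw.2
      rw [Matrix.mulVec_sub] at h4
      have h5 := hgh g hg h hh i w hw.1
      have h6 : qg g *ᵥ (qg h *ᵥ w) - qg h *ᵥ w = (qg g *ᵥ (qg h *ᵥ w) - qg h *ᵥ (qg g *ᵥ w)) +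
          (qg h *ᵥ (qg g *ᵥ w) - qg h *ᵥ w) := by abel
      rw [h6]
      exact (W i).add_mem h5 h4
    rcases hirr i M h1 h2 h3 with h | h
    · right
      intro w hw hw2
      rw [← h, hM]
      exact ⟨hw, hw2⟩
    · left
      intro w hw
      rw [← h, hM] at hw
      exact hw.2
  · intro y hy s N hJD
    have hdet := ((hZG n P).2 y hy).1
    obtain ⟨s', N', hJD', _, hN', huniq⟩ := hJE n y (by rw [hdet]; exact isUnit_one)
    have hNN : N = N' := (huniq s N hJD).2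
    rw [← hNN] at hN'
    -- the properties of y
    have hy1 : ∀ j, ∀ w ∈ W j, y *ᵥ w ∈ W j := by
      intro j w hw
      have := SC_lin (mz P) ((W j).comap (SC_ev w)) (by
        rintro x ⟨g, hg, rfl⟩
        exact hst g hg j w hw) y hy
      exact this
    have hy2 : ∀ h ∈ P, ∀ i, ∀ w ∈ W (i + 1), y *ᵥ (qg h *ᵥ w) - qg h *ᵥ (y *ᵥ w) ∈ W i := by
      intro h hh i w hw
      have := SC_lin (mz P) ((W i).comap (SC_ev (qg h *ᵥ w) - (Matrix.mulVecLin (qg h)).comp (SC_ev w))) (by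
        rintro x ⟨g, hg, rfl⟩
        exact hgh g hg h hh i w hw) y hy
      exact this
    have hNp : (∀ j, ∀ w ∈ W j, N *ᵥ w ∈ W j) ∧
        (∀ h ∈ P, ∀ i, ∀ w ∈ W (i + 1), N *ᵥ (qg h *ᵥ w) - qg h *ᵥ (N *ᵥ w) ∈ W i) := by
      refine Algebra.adjoin_induction (R := ℚ) (s := {y})
        (p := fun x _ => (∀ j, ∀ w ∈ W j, x *ᵥ w ∈ W j) ∧
          (∀ h ∈ P, ∀ i, ∀ w ∈ W (i + 1), x *ᵥ (qg h *ᵥ w) - qg h *ᵥ (x *ᵥ w) ∈ W i)) ?_ ?_ ?_ ?_ hN'
      · rintro x rfl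
        exact ⟨hy1, hy2⟩
      · intro r
        have h1 : ∀ w : VQ n, (algebraMap ℚ (MQ n) r) *ᵥ w = r • w := by
          intro w
          rw [Algebra.algebraMap_eq_smul_one, Matrix.smul_mulVec, Matrix.one_mulVec]
        refine ⟨?_, ?_⟩
        · intro j w hw
          rw [h1]
          exact (W j).smul_mem r hw
        · intro h _ i w _
          rw [h1, h1, Matrix.mulVec_smul, sub_self]
          exact (W i).zero_mem
      · rintro x x' _ _ ⟨a1, a2⟩ ⟨b1, b2⟩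
        refine ⟨?_, ?_⟩
        · intro j w hw
          rw [Matrix.add_mulVec]
          exact (W j).add_mem (a1 j w hw) (b1 j w hw)
        · intro h hh i w hw
          rw [Matrix.add_mulVec, Matrix.add_mulVec, Matrix.mulVec_add]
          have := (W i).add_mem (a2 h hh i w hw) (b2 h hh i w hw)
          have e : x *ᵥ (qg h *ᵥ w) + x' *ᵥ (qg h *ᵥ w) - (qg h *ᵥ (x *ᵥ w) + qg h *ᵥ (x' *ᵥ w)) =
              x *ᵥ (qg h *ᵥ w) - qg h *ᵥ (x *ᵥ w) + (x' *ᵥ (qg h *ᵥ w) - qg h *ᵥ (x' *ᵥ w)) := by abel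
          rw [e]
          exact this
      · rintro x x' _ _ ⟨a1, a2⟩ ⟨b1, b2⟩
        refine ⟨?_, ?_⟩
        · intro j w hw
          rw [← Matrix.mulVec_mulVec]
          exact a1 j _ (b1 j w hw)
        · intro h hh i w hw
          rw [← Matrix.mulVec_mulVec, ← Matrix.mulVec_mulVec]
          have h3 := a1 i _ (b2 h hh i w hw)
          rw [Matrix.mulVec_sub] at h3
          have h4 := a2 h hh i _ (b1 (i + 1) w hw)
          have e : x *ᵥ (x' *ᵥ (qg h *ᵥ w)) - qg h *ᵥ (x *ᵥ (x' *ᵥ w)) =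
              (x *ᵥ (x' *ᵥ (qg h *ᵥ w)) - x *ᵥ (qg h *ᵥ (x' *ᵥ w))) +
              (x *ᵥ (qg h *ᵥ (x' *ᵥ w)) - qg h *ᵥ (x *ᵥ (x' *ᵥ w))) := by abel
          rw [e]
          exact (W i).add_mem h3 h4
    intro i
    obtain ⟨M, hM⟩ : ∃ M : Submodule ℚ (VQ n), ∀ w, w ∈ M ↔ w ∈ W (i + 1) ∧ N *ᵥ w ∈ W i := by
      refine ⟨W (i + 1) ⊓ (W i).comap (Matrix.mulVecLin N), ?_⟩
      intro w
      rw [Submodule.mem_inf, Submodule.mem_comap]
      rfl
    have h1 : W i ≤ M := by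
      intro w hw
      rw [hM]
      exact ⟨hW (Nat.le_succ i) hw, hNp.1 i w hw⟩
    have h2 : M ≤ W (i + 1) := fun w hw => ((hM w).1 hw).1
    have h3 : ∀ h ∈ P, ∀ w ∈ M, qg h *ᵥ w ∈ M := by
      intro h hh w hw
      rw [hM] at hw ⊢
      refine ⟨hst h hh _ _ hw.1, ?_⟩
      have h4 := hst h hh i _ hw.2
      have h5 := hNp.2 h hh i w hw.1
      have h6 : N *ᵥ (qg h *ᵥ w) = (N *ᵥ (qg h *ᵥ w) - qg h *ᵥ (N *ᵥ w)) + qg h *ᵥ (N *ᵥ w) := by abel
      rw [h6]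
      exact (W i).add_mem h5 h4
    rcases hirr i M h1 h2 h3 with h | h
    · have hdown : ∀ r : ℕ, ∀ w ∈ W (i + 1), (N ^ r) *ᵥ w ∈ W i → w ∈ W i := by
        intro r
        induction r with
        | zero =>
          intro w _ hw
          rw [pow_zero, Matrix.one_mulVec] at hw
          exact hw
        | succ r ih =>
          intro w hw hw2
          rw [pow_succ, ← Matrix.mulVec_mulVec] at hw2
          have h4 := ih (N *ᵥ w) (hNp.1 _ w hw) hw2
          rw [← h, hM]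
          exact ⟨hw, h4⟩
      obtain ⟨m, hm⟩ := hJD.1
      intro w hw
      refine hNp.1 i w (hdown m w hw ?_)
      rw [hm, Matrix.zero_mulVec]
      exact (W i).zero_mem
    · intro w hw
      rw [← h, hM] at hw
      exact hw.2

end Pool.Agent.BS
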