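import Pool.Agent.helper73.BS.Spec2

set_option autoImplicit false

namespace Pool.Agent.BS

open Matrix Module Pool.Agent.UG Pool.Agent.H48SL Pool.Agent.SHL

theorem UT_sub {n : ℕ} (M : MQ n) (w : VQ n) : (M - 1) *ᵥ w = M *ᵥ w - w := by
  rw [Matrix.sub_mulVec, Matrix.one_mulVec]

theorem UT (hKOL : UG.KOL_stmt) : UT_stmt := by
  intro n P U W hW hst hirr hUP hnil hconj a ha i w hw
  obtain ⟨M, hM⟩ : ∃ M : Submodule ℚ (VQ n), M = W i ⊔ Submodule.span ℚ
      {x | ∃ a ∈ U, ∃ w ∈ W (i + 1), x = (qg a - 1) *ᵥ w} := ⟨_, rfl⟩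
  have hle1 : W i ≤ M := by
    rw [hM]
    exact le_sup_left
  have hle2 : M ≤ W (i + 1) := by
    rw [hM]
    refine sup_le (hW (Nat.le_succ i)) (Submodule.span_le.2 ?_)
    rintro x ⟨a, ha, w, hw, rfl⟩
    rw [UT_sub]
    exact (W (i + 1)).sub_mem (hst a (hUP ha) (i + 1) w hw) hw
  have hstM : ∀ g ∈ P, ∀ w ∈ M, qg g *ᵥ w ∈ M := by
    intro g hg
    have h1 : M ≤ M.comap (Matrix.mulVecLin (qg g)) := by
      conv_lhs => rw [hM]
      refine sup_le ?_ (Submodule.span_le.2 ?_)
      · intro w hw
        exact hle1 (hst g hg i w hw)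
      · rintro x ⟨a, ha, w, hw, rfl⟩
        show qg g *ᵥ ((qg a - 1) *ᵥ w) ∈ M
        have h2 : qg g *ᵥ ((qg a - 1) *ᵥ w) = (qg (g * a * g⁻¹) - 1) *ᵥ (qg g *ᵥ w) := by
          rw [Matrix.mulVec_mulVec, Matrix.mulVec_mulVec]
          congr 1
          rw [qg_mul, qg_mul, sub_mul, one_mul, mul_sub, mul_one, mul_assoc (qg g * qg a), qg_inv_mul, mul_one]
        rw [h2, hM]
        exact Submodule.mem_sup_right (Submodule.subset_span ⟨_, hconj g hg a ha, _, hst g hg (i + 1) w hw, rfl⟩)
    intro w hw
    exact h1 hw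
  rcases hirr i M hle1 hle2 hstM with h | h
  · rw [← UT_sub, ← h, hM]
    exact Submodule.mem_sup_right (Submodule.subset_span ⟨a, ha, w, hw, rfl⟩)
  · obtain ⟨N, hN⟩ := hKOL n U hnil
    have key : ∀ j : ℕ, W (i + 1) ≤ W i ⊔ Submodule.span ℚ
        {x | ∃ l : List (SLZ n), (∀ a ∈ l, a ∈ U) ∧ l.length = j ∧ ∃ w ∈ W (i + 1),
          x = (l.map (fun a => qg a - 1)).prod *ᵥ w} := by
      intro j
      induction j with
      | zero =>
        intro w hw
        refine Submodule.mem_sup_right (Submodule.subset_span ⟨[], ?_, rfl, w, hw, ?_⟩)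
        · intro a ha
          simp at ha
        · simp
      | succ j ih =>
        refine ih.trans (sup_le le_sup_left (Submodule.span_le.2 ?_))
        rintro x ⟨l, hl, hlj, w, hw, rfl⟩
        have hpres : ∀ l : List (SLZ n), (∀ a ∈ l, a ∈ U) → ∀ w ∈ W i,
            (l.map (fun a => qg a - 1)).prod *ᵥ w ∈ W i := by
          intro l
          induction l with
          | nil =>
            intro _ w hw
            simpa using hw
          | cons b l ihl =>
            intro hl w hw
            rw [List.map_cons, List.prod_cons, ← Matrix.mulVec_mulVec, UT_sub]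
            have h3 := ihl (fun a ha => hl a (List.mem_cons_of_mem b ha)) w hw
            exact (W i).sub_mem (hst b (hUP (hl b (by simp))) i _ h3) h3
        have h1 : M ≤ (W i ⊔ Submodule.span ℚ
            {x | ∃ l : List (SLZ n), (∀ a ∈ l, a ∈ U) ∧ l.length = j + 1 ∧ ∃ w ∈ W (i + 1),
              x = (l.map (fun a => qg a - 1)).prod *ᵥ w}).comap
              (Matrix.mulVecLin ((l.map (fun a => qg a - 1)).prod)) := by
          rw [hM]
          refine sup_le ?_ (Submodule.span_le.2 ?_)
          · intro w hw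
            exact Submodule.mem_sup_left (hpres l hl w hw)
          · rintro x ⟨b, hb, w', hw', rfl⟩
            refine Submodule.mem_sup_right (Submodule.subset_span ⟨l ++ [b], ?_, ?_, w', hw', ?_⟩)
            · intro c hc
              rcases List.mem_append.1 hc with hc | hc
              · exact hl c hc
              · rw [List.mem_singleton.1 hc]
                exact hb
            · simp [hlj]
            · show (l.map (fun a => qg a - 1)).prod *ᵥ ((qg b - 1) *ᵥ w') = _
              rw [List.map_append, List.prod_append, ← Matrix.mulVec_mulVec]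
              simp
        rw [h] at h1
        exact h1 hw
    have hfin : W (i + 1) ≤ W i := by
      refine (key N).trans (sup_le le_rfl (Submodule.span_le.2 ?_))
      rintro x ⟨l, hl, hlN, w, hw, rfl⟩
      rw [hN l hl hlN.ge, Matrix.zero_mulVec]
      exact (W i).zero_mem
    exact hfin ((W (i + 1)).sub_mem (hst a (hUP ha) (i + 1) w hw) hw)

end Pool.Agent.BS
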